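import Mathlib

/-!
# Shortest flip paths between k-triangulations may flip a common edge (MP_1d99bd_co, Q1: disproved)

The vertices of a convex `n`-gon are `0, …, n-1` in cyclic order; the segment between the vertices
`a < b` is the pair `(a, b)`.
-/

namespace Pool.Agent.Results.MP_1d99bd_co.CommonEdgeFlip

/-- The segments (sides and diagonals) between the vertices of a convex `n`-gon. -/
def segs (n : ℕ) : Finset (Fin n × Fin n) := Finset.univ.filter (fun e => e.1 < e.2)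

/-- Two segments cross (in their relative interiors). -/
def Cross {n : ℕ} (e f : Fin n × Fin n) : Prop :=
  (e.1 < f.1 ∧ f.1 < e.2 ∧ e.2 < f.2) ∨ (f.1 < e.1 ∧ e.1 < f.2 ∧ f.2 < e.2)

/-- No `k + 1` segments of `T` are pairwise crossing. -/
def CrossFree (k : ℕ) {n : ℕ} (T : Finset (Fin n × Fin n)) : Prop :=
  ∀ A ⊆ T, A.card = k + 1 → ¬ (A : Set (Fin n × Fin n)).Pairwise Cross

/-- `T` is a `k`-triangulation of the convex `n`-gon: a maximal set of segments without `k + 1`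
pairwise crossing ones. -/
def IsKTriangulation (k : ℕ) {n : ℕ} (T : Finset (Fin n × Fin n)) : Prop :=
  T ⊆ segs n ∧ CrossFree k T ∧ ∀ U ⊆ segs n, CrossFree k U → T ⊆ U → U = T

/-- The `k`-triangulations of the convex `n`-gon. -/
def KTri (n k : ℕ) : Type := {T : Finset (Fin n × Fin n) // IsKTriangulation k T}

/-- The flip graph: two `k`-triangulations are adjacent if one arises from the other by exchanging
one segment. -/
def flipGraph (n k : ℕ) : SimpleGraph (KTri n k) where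
  Adj T U := ∃ e ∈ T.1, ∃ f, f ∉ T.1 ∧ U.1 = insert f (T.1.erase e)
  symm := ⟨by
    rintro T U ⟨e, he, f, hf, h⟩
    refine ⟨f, h ▸ Finset.mem_insert_self _ _, e, ?_, ?_⟩
    · rw [h, Finset.mem_insert]
      rintro (h1 | h1)
      · exact hf (h1 ▸ he)
      · simp at h1
    · rw [h, Finset.erase_insert (fun h1 => hf (Finset.mem_of_mem_erase h1)),
        Finset.insert_erase he]⟩
  loopless := ⟨by
    rintro T ⟨e, he, f, hf, h⟩
    exact hf (h ▸ Finset.mem_insert_self _ _)⟩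

instance {n : ℕ} (e f : Fin n × Fin n) : Decidable (Cross e f) := by
  unfold Cross; infer_instance

lemma Cross.ne {n : ℕ} {e f : Fin n × Fin n} (h : Cross e f) : e ≠ f := by
  rintro rfl
  rcases h with h | h
  · exact lt_irrefl _ h.1
  · exact lt_irrefl _ h.1

lemma Cross.symm {n : ℕ} {e f : Fin n × Fin n} (h : Cross e f) : Cross f e := by
  rcases h with h | h
  · exact Or.inr h
  · exact Or.inl h

lemma crossFree_two {n : ℕ} (T : Finset (Fin n × Fin n)) :
    CrossFree 2 T ↔ ∀ a ∈ T, ∀ b ∈ T, Cross a b → ∀ c ∈ T, Cross a c → ¬ Cross b c := by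
  constructor
  · intro h a ha b hb hab c hc hac hbc
    refine h {a, b, c} ?_ ?_ ?_
    · intro x hx
      simp only [Finset.mem_insert, Finset.mem_singleton] at hx
      rcases hx with rfl | rfl | rfl <;> assumption
    · rw [Finset.card_insert_of_notMem, Finset.card_pair hbc.ne]
      simp only [Finset.mem_insert, Finset.mem_singleton, not_or]
      exact ⟨hab.ne, hac.ne⟩
    · intro x hx y hy hxy
      simp only [Finset.coe_insert, Finset.coe_singleton, Set.mem_insert_iff,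
        Set.mem_singleton_iff] at hx hy
      rcases hx with rfl | rfl | rfl <;> rcases hy with rfl | rfl | rfl <;>
        first
        | exact absurd rfl hxy
        | assumption
        | exact Cross.symm ‹_›
  · intro h A hA hcard hpair
    obtain ⟨a, b, c, hab, hac, hbc, rfl⟩ := Finset.card_eq_three.1 hcard
    have ha : a ∈ ({a, b, c} : Finset (Fin n × Fin n)) := by simp
    have hb : b ∈ ({a, b, c} : Finset (Fin n × Fin n)) := by simp
    have hc : c ∈ ({a, b, c} : Finset (Fin n × Fin n)) := by simp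
    exact h a (hA ha) b (hA hb) (hpair ha hb hab) c (hA hc) (hpair ha hc hac) (hpair hb hc hbc)

/-- A decidable criterion. -/
lemma isKTri_two {n : ℕ} (T : Finset (Fin n × Fin n)) (h1 : T ⊆ segs n)
    (h2 : ∀ a ∈ T, ∀ b ∈ T, Cross a b → ∀ c ∈ T, Cross a c → ¬ Cross b c)
    (h3 : ∀ f ∈ segs n, f ∉ T → ∃ a ∈ T, Cross f a ∧ ∃ b ∈ T, Cross f b ∧ Cross a b) :
    IsKTriangulation 2 T := by
  refine ⟨h1, (crossFree_two T).2 h2, ?_⟩
  intro U hU hUf hTU
  by_contra hne
  have hss : T ⊂ U := lt_of_le_of_ne hTU (fun h => hne h.symm)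
  obtain ⟨f, hfU, hfT⟩ := Finset.exists_of_ssubset hss
  obtain ⟨a, ha, hfa, b, hb, hfb, hab⟩ := h3 f (hU hfU) hfT
  exact (crossFree_two U).1 hUf f hfU a (hTU ha) hfa b (hTU hb) hfb hab

/-- The sides and the short diagonals of the octagon. -/
def short8 : Finset (Fin 8 × Fin 8) :=
  {(0, 1), (1, 2), (2, 3), (3, 4), (4, 5), (5, 6), (6, 7), (0, 7),
    (0, 2), (1, 3), (2, 4), (3, 5), (4, 6), (5, 7), (0, 6), (1, 7)}

def A0 : Finset (Fin 8 × Fin 8) := {(0, 3), (0, 4), (0, 5), (1, 4), (3, 6), (3, 7)} ∪ short8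
def A1 : Finset (Fin 8 × Fin 8) := {(0, 3), (0, 4), (0, 5), (1, 4), (1, 6), (3, 6)} ∪ short8
def A2 : Finset (Fin 8 × Fin 8) := {(0, 3), (0, 4), (0, 5), (1, 6), (2, 6), (3, 6)} ∪ short8
def A3 : Finset (Fin 8 × Fin 8) := {(0, 3), (0, 5), (1, 6), (2, 5), (2, 6), (3, 6)} ∪ short8
def A4 : Finset (Fin 8 × Fin 8) := {(0, 3), (1, 6), (2, 5), (2, 6), (3, 6), (3, 7)} ∪ short8

lemma tri0 : IsKTriangulation 2 A0 :=
  isKTri_two A0 (by decide +kernel) (by decide +kernel) (by decide +kernel)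
lemma tri1 : IsKTriangulation 2 A1 :=
  isKTri_two A1 (by decide +kernel) (by decide +kernel) (by decide +kernel)
lemma tri2 : IsKTriangulation 2 A2 :=
  isKTri_two A2 (by decide +kernel) (by decide +kernel) (by decide +kernel)
lemma tri3 : IsKTriangulation 2 A3 :=
  isKTri_two A3 (by decide +kernel) (by decide +kernel) (by decide +kernel)
lemma tri4 : IsKTriangulation 2 A4 :=
  isKTri_two A4 (by decide +kernel) (by decide +kernel) (by decide +kernel)

lemma adj01 : (flipGraph 8 2).Adj ⟨A0, tri0⟩ ⟨A1, tri1⟩ :=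
  ⟨(3, 7), by decide +kernel, (1, 6), by decide +kernel, by
    show A1 = _; decide +kernel⟩
lemma adj12 : (flipGraph 8 2).Adj ⟨A1, tri1⟩ ⟨A2, tri2⟩ :=
  ⟨(1, 4), by decide +kernel, (2, 6), by decide +kernel, by
    show A2 = _; decide +kernel⟩
lemma adj23 : (flipGraph 8 2).Adj ⟨A2, tri2⟩ ⟨A3, tri3⟩ :=
  ⟨(0, 4), by decide +kernel, (2, 5), by decide +kernel, by
    show A3 = _; decide +kernel⟩
lemma adj34 : (flipGraph 8 2).Adj ⟨A3, tri3⟩ ⟨A4, tri4⟩ :=
  ⟨(0, 5), by decide +kernel, (3, 7), by decide +kernel, by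
    show A4 = _; decide +kernel⟩

/-- Along a walk of length `l` at most `l` segments are gained. -/
lemma card_sdiff_le {n k : ℕ} {T U : KTri n k} (q : (flipGraph n k).Walk T U) :
    (U.1 \ T.1).card ≤ q.length := by
  induction q with
  | nil => simp
  | @cons X Y Z h q ih =>
    obtain ⟨e, he, f, hf, hY⟩ := h
    have hsub : Z.1 \ X.1 ⊆ insert f (Z.1 \ Y.1) := by
      intro x hx
      rw [Finset.mem_sdiff] at hx
      rw [Finset.mem_insert, Finset.mem_sdiff]
      by_cases hxf : x = f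
      · exact Or.inl hxf
      · refine Or.inr ⟨hx.1, ?_⟩
        rw [hY, Finset.mem_insert]
        rintro (h1 | h1)
        · exact hxf h1
        · exact hx.2 (Finset.mem_of_mem_erase h1)
    calc (Z.1 \ X.1).card ≤ (insert f (Z.1 \ Y.1)).card := Finset.card_le_card hsub
      _ ≤ (Z.1 \ Y.1).card + 1 := Finset.card_insert_le _ _
      _ ≤ q.length + 1 := by omega
      _ = _ := by rw [SimpleGraph.Walk.length_cons]

lemma key : ∀ e ∈ A0, ∀ f ∈ segs 8, f ∉ A0 → (A4 \ insert f (A0.erase e)).card ≤ 2 →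
    ∃ a ∈ insert f (A0.erase e), ∃ b ∈ insert f (A0.erase e), Cross a b ∧
      ∃ c ∈ insert f (A0.erase e), Cross a c ∧ Cross b c := by
  decide +kernel

lemma four_le {T U : KTri 8 2} (q : (flipGraph 8 2).Walk T U) (hT : T.1 = A0) (hU : U.1 = A4) :
    4 ≤ q.length := by
  cases q with
  | nil =>
    exfalso
    rw [hT] at hU
    exact absurd hU (by decide +kernel)
  | @cons _ Y _ h q =>
    by_contra hq
    rw [SimpleGraph.Walk.length_cons] at hq
    have h1 := card_sdiff_le q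
    obtain ⟨e, he, f, hf, hY⟩ := h
    rw [hT] at he hf hY
    have hfs : f ∈ segs 8 := Y.2.1 (hY ▸ Finset.mem_insert_self _ _)
    have h2 : (A4 \ insert f (A0.erase e)).card ≤ 2 := by
      rw [← hY, ← hU]
      exact h1.trans (by omega)
    obtain ⟨a, ha, b, hb, hab, c, hc, hac, hbc⟩ := key e he f hfs hf h2
    have hfree := (crossFree_two _).1 Y.2.2.1
    rw [hY] at hfree
    exact hfree a ha b hb hab c hc hac hbc

/-! ### The decagon -/

/-- The sides and the short diagonals of the decagon. -/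
def short10 : Finset (Fin 10 × Fin 10) :=
  {(0, 1), (1, 2), (2, 3), (3, 4), (4, 5), (5, 6), (6, 7), (7, 8), (8, 9), (0, 9),
    (0, 2), (1, 3), (2, 4), (3, 5), (4, 6), (5, 7), (6, 8), (7, 9), (0, 8), (1, 9)}

def B0 : Finset (Fin 10 × Fin 10) :=
  {(0, 3), (0, 4), (0, 5), (1, 4), (1, 5), (1, 6), (1, 7), (1, 8), (5, 8), (5, 9)} ∪ short10
def B1 : Finset (Fin 10 × Fin 10) :=
  {(0, 3), (0, 4), (0, 5), (1, 4), (1, 5), (1, 7), (1, 8), (4, 7), (5, 8), (5, 9)} ∪ short10
def B2 : Finset (Fin 10 × Fin 10) :=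
  {(0, 3), (0, 5), (1, 4), (1, 5), (1, 7), (1, 8), (3, 7), (4, 7), (5, 8), (5, 9)} ∪ short10
def B3 : Finset (Fin 10 × Fin 10) :=
  {(0, 5), (1, 4), (1, 5), (1, 7), (1, 8), (2, 7), (3, 7), (4, 7), (5, 8), (5, 9)} ∪ short10
def B4 : Finset (Fin 10 × Fin 10) :=
  {(1, 4), (1, 5), (1, 7), (1, 8), (2, 7), (2, 9), (3, 7), (4, 7), (5, 8), (5, 9)} ∪ short10
def B5 : Finset (Fin 10 × Fin 10) :=
  {(1, 4), (1, 5), (1, 7), (1, 8), (2, 7), (2, 8), (2, 9), (3, 7), (4, 7), (5, 8)} ∪ short10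
def B6 : Finset (Fin 10 × Fin 10) :=
  {(1, 4), (1, 5), (1, 6), (1, 7), (1, 8), (2, 7), (2, 8), (2, 9), (3, 7), (4, 7)} ∪ short10
def C0 : Finset (Fin 10 × Fin 10) :=
  {(0, 3), (0, 5), (1, 4), (1, 5), (1, 6), (1, 7), (1, 8), (3, 6), (5, 8), (5, 9)} ∪ short10
def C1 : Finset (Fin 10 × Fin 10) :=
  {(0, 3), (0, 4), (0, 5), (1, 4), (1, 5), (1, 6), (1, 7), (1, 8), (5, 9), (6, 9)} ∪ short10
def C2 : Finset (Fin 10 × Fin 10) :=
  {(0, 4), (0, 5), (1, 4), (1, 5), (1, 6), (1, 7), (1, 8), (2, 5), (5, 8), (5, 9)} ∪ short10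
def C3 : Finset (Fin 10 × Fin 10) :=
  {(0, 3), (0, 4), (0, 5), (0, 7), (1, 4), (1, 5), (1, 6), (1, 7), (1, 8), (5, 8)} ∪ short10
def C4 : Finset (Fin 10 × Fin 10) :=
  {(0, 3), (0, 4), (1, 4), (1, 5), (1, 6), (1, 7), (1, 8), (4, 9), (5, 8), (5, 9)} ∪ short10

lemma triB0 : IsKTriangulation 2 B0 :=
  isKTri_two B0 (by decide +kernel) (by decide +kernel) (by decide +kernel)
lemma triB1 : IsKTriangulation 2 B1 :=
  isKTri_two B1 (by decide +kernel) (by decide +kernel) (by decide +kernel)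
lemma triB2 : IsKTriangulation 2 B2 :=
  isKTri_two B2 (by decide +kernel) (by decide +kernel) (by decide +kernel)
lemma triB3 : IsKTriangulation 2 B3 :=
  isKTri_two B3 (by decide +kernel) (by decide +kernel) (by decide +kernel)
lemma triB4 : IsKTriangulation 2 B4 :=
  isKTri_two B4 (by decide +kernel) (by decide +kernel) (by decide +kernel)
lemma triB5 : IsKTriangulation 2 B5 :=
  isKTri_two B5 (by decide +kernel) (by decide +kernel) (by decide +kernel)
lemma triB6 : IsKTriangulation 2 B6 :=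
  isKTri_two B6 (by decide +kernel) (by decide +kernel) (by decide +kernel)
lemma adjB0 : (flipGraph 10 2).Adj ⟨B0, triB0⟩ ⟨B1, triB1⟩ :=
  ⟨(1, 6), by decide +kernel, (4, 7), by decide +kernel, by
    show B1 = _; decide +kernel⟩
lemma adjB1 : (flipGraph 10 2).Adj ⟨B1, triB1⟩ ⟨B2, triB2⟩ :=
  ⟨(0, 4), by decide +kernel, (3, 7), by decide +kernel, by
    show B2 = _; decide +kernel⟩
lemma adjB2 : (flipGraph 10 2).Adj ⟨B2, triB2⟩ ⟨B3, triB3⟩ :=
  ⟨(0, 3), by decide +kernel, (2, 7), by decide +kernel, by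
    show B3 = _; decide +kernel⟩
lemma adjB3 : (flipGraph 10 2).Adj ⟨B3, triB3⟩ ⟨B4, triB4⟩ :=
  ⟨(0, 5), by decide +kernel, (2, 9), by decide +kernel, by
    show B4 = _; decide +kernel⟩
lemma adjB4 : (flipGraph 10 2).Adj ⟨B4, triB4⟩ ⟨B5, triB5⟩ :=
  ⟨(5, 9), by decide +kernel, (2, 8), by decide +kernel, by
    show B5 = _; decide +kernel⟩
lemma adjB5 : (flipGraph 10 2).Adj ⟨B5, triB5⟩ ⟨B6, triB6⟩ :=
  ⟨(5, 8), by decide +kernel, (1, 6), by decide +kernel, by
    show B6 = _; decide +kernel⟩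

/-- A crossing triple. -/
def HasTriple {n : ℕ} (X : Finset (Fin n × Fin n)) : Prop :=
  ∃ a ∈ X, ∃ b ∈ X, Cross a b ∧ ∃ c ∈ X, Cross a c ∧ Cross b c

instance {n : ℕ} (X : Finset (Fin n × Fin n)) : Decidable (HasTriple X) := by
  unfold HasTriple; infer_instance

lemma not_hasTriple {n : ℕ} (T : KTri n 2) : ¬ HasTriple T.1 := by
  rintro ⟨a, ha, b, hb, hab, c, hc, hac, hbc⟩
  exact (crossFree_two _).1 T.2.2.1 a ha b hb hab c hc hac hbc

lemma keyB : ∀ e ∈ B0, e ≠ (1, 6) → ∀ f ∈ segs 10, f ∉ B0 →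
    (B6 \ insert f (B0.erase e)).card ≤ 5 →
    HasTriple (insert f (B0.erase e)) ∨ insert f (B0.erase e) = C0 ∨
      insert f (B0.erase e) = C1 ∨ insert f (B0.erase e) = C2 ∨ insert f (B0.erase e) = C3 ∨
      insert f (B0.erase e) = C4 := by
  decide +kernel

lemma keyC0 : ∀ e ∈ C0, e ≠ (1, 6) → ∀ f ∈ segs 10, f ∉ C0 →
    (B6 \ insert f (C0.erase e)).card ≤ 4 → HasTriple (insert f (C0.erase e)) := by
  decide +kernel
lemma keyC1 : ∀ e ∈ C1, e ≠ (1, 6) → ∀ f ∈ segs 10, f ∉ C1 →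
    (B6 \ insert f (C1.erase e)).card ≤ 4 → HasTriple (insert f (C1.erase e)) := by
  decide +kernel
lemma keyC2 : ∀ e ∈ C2, e ≠ (1, 6) → ∀ f ∈ segs 10, f ∉ C2 →
    (B6 \ insert f (C2.erase e)).card ≤ 4 → HasTriple (insert f (C2.erase e)) := by
  decide +kernel
lemma keyC3 : ∀ e ∈ C3, e ≠ (1, 6) → ∀ f ∈ segs 10, f ∉ C3 →
    (B6 \ insert f (C3.erase e)).card ≤ 4 → HasTriple (insert f (C3.erase e)) := by
  decide +kernel
lemma keyC4 : ∀ e ∈ C4, e ≠ (1, 6) → ∀ f ∈ segs 10, f ∉ C4 →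
    (B6 \ insert f (C4.erase e)).card ≤ 4 → HasTriple (insert f (C4.erase e)) := by
  decide +kernel

/-- A flip that is not the flip of `v`. -/
lemma adj_ne {n k : ℕ} {T U : KTri n k} {v : Fin n × Fin n} (h : (flipGraph n k).Adj T U)
    (hv : v ∈ T.1) (hn : ¬ (v ∈ T.1 ∧ v ∉ U.1)) :
    v ∈ U.1 ∧ ∃ e ∈ T.1, e ≠ v ∧ ∃ f ∈ segs n, f ∉ T.1 ∧ U.1 = insert f (T.1.erase e) := by
  have hvU : v ∈ U.1 := by
    by_contra h1
    exact hn ⟨hv, h1⟩
  obtain ⟨e, he, f, hf, hU⟩ := h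
  refine ⟨hvU, e, he, ?_, f, U.2.1 (hU ▸ Finset.mem_insert_self _ _), hf, hU⟩
  rintro rfl
  rw [hU, Finset.mem_insert] at hvU
  rcases hvU with h1 | h1
  · exact hf (h1 ▸ hv)
  · simp at h1

lemma seven_le {T U : KTri 10 2} (q : (flipGraph 10 2).Walk T U) (hT : T.1 = B0) (hU : U.1 = B6)
    (hq : ∀ d ∈ q.darts, ¬ (((1, 6) : Fin 10 × Fin 10) ∈ d.fst.1 ∧ (1, 6) ∉ d.snd.1)) :
    7 ≤ q.length := by
  by_contra hlen
  have h5 : (B6 \ B0).card = 5 := by decide +kernel
  cases q with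
  | nil =>
    rw [hT] at hU
    exact absurd hU (by decide +kernel)
  | @cons _ X _ h q =>
    rw [SimpleGraph.Walk.length_cons] at hlen
    rw [SimpleGraph.Walk.darts_cons] at hq
    have hq0 := hq _ List.mem_cons_self
    have hq1 := fun d hd => hq d (List.mem_cons_of_mem _ hd)
    obtain ⟨hvX, e, he, hev, f, hf, hfT, hX⟩ := adj_ne h (by rw [hT]; decide +kernel) hq0
    have hXc : (B6 \ X.1).card ≤ 5 := by
      have := card_sdiff_le q
      rw [hU] at this
      omega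
    cases q with
    | nil =>
      have := card_sdiff_le (SimpleGraph.Walk.cons h SimpleGraph.Walk.nil)
      rw [hT, hU, h5] at this
      simp at this
    | @cons _ Y _ h' q =>
      rw [SimpleGraph.Walk.length_cons] at hlen
      rw [SimpleGraph.Walk.darts_cons] at hq1
      have hq2 := hq1 _ List.mem_cons_self
      obtain ⟨hvY, e', he', hev', f', hf', hfT', hY⟩ := adj_ne h' hvX hq2
      have hYc : (B6 \ Y.1).card ≤ 4 := by
        have := card_sdiff_le q
        rw [hU] at this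
        omega
      have hYt := not_hasTriple Y
      have hXt := not_hasTriple X
      rw [hT] at he hfT hX
      rw [hX] at hXc hXt
      rw [hY] at hYc hYt
      rcases keyB e he hev f hf hfT hXc with h1 | h1 | h1 | h1 | h1 | h1
      · exact hXt h1
      · rw [h1] at hX
        rw [hX] at he' hfT' hYc hYt
        exact hYt (keyC0 e' he' hev' f' hf' hfT' hYc)
      · rw [h1] at hX
        rw [hX] at he' hfT' hYc hYt
        exact hYt (keyC1 e' he' hev' f' hf' hfT' hYc)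
      · rw [h1] at hX
        rw [hX] at he' hfT' hYc hYt
        exact hYt (keyC2 e' he' hev' f' hf' hfT' hYc)
      · rw [h1] at hX
        rw [hX] at he' hfT' hYc hYt
        exact hYt (keyC3 e' he' hev' f' hf' hfT' hYc)
      · rw [h1] at hX
        rw [hX] at he' hfT' hYc hYt
        exact hYt (keyC4 e' he' hev' f' hf' hfT' hYc)

lemma octagon : ∃ (T T' : KTri 8 2) (v : Fin 8 × Fin 8) (p : (flipGraph 8 2).Walk T T'),
    v ∈ T.1 ∧ v ∈ T'.1 ∧ (∀ q : (flipGraph 8 2).Walk T T', p.length ≤ q.length) ∧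
      ∃ d ∈ p.darts, v ∈ d.fst.1 ∧ v ∉ d.snd.1 := by
  refine ⟨⟨A0, tri0⟩, ⟨A4, tri4⟩, (3, 7),
    .cons adj01 (.cons adj12 (.cons adj23 (.cons adj34 .nil))), ?_, ?_, ?_, ?_⟩
  · show _ ∈ A0; decide +kernel
  · show _ ∈ A4; decide +kernel
  · intro q
    exact four_le q rfl rfl
  · refine ⟨⟨(⟨A0, tri0⟩, ⟨A1, tri1⟩), adj01⟩, ?_, ?_, ?_⟩
    · simp [SimpleGraph.Walk.darts]
    · show _ ∈ A0; decide +kernel
    · show _ ∉ A1; decide +kernel

/-- **Q1 of MP_1d99bd is false, also in a strong sense.**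
(1) There are two `2`-triangulations `T`, `T'` of the convex octagon with a common segment `v` and a
shortest path from `T` to `T'` in the flip graph one of whose steps is the flip of `v`.
(2) There are two `2`-triangulations `T`, `T'` of the convex decagon with a common segment `v` such
that every shortest path from `T` to `T'` in the flip graph (there are paths) contains the flip of
`v`. -/
theorem result :
    (∃ (T T' : KTri 8 2) (v : Fin 8 × Fin 8) (p : (flipGraph 8 2).Walk T T'),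
      v ∈ T.1 ∧ v ∈ T'.1 ∧ (∀ q : (flipGraph 8 2).Walk T T', p.length ≤ q.length) ∧
        ∃ d ∈ p.darts, v ∈ d.fst.1 ∧ v ∉ d.snd.1) ∧
    (∃ (T T' : KTri 10 2) (v : Fin 10 × Fin 10),
      v ∈ T.1 ∧ v ∈ T'.1 ∧ (flipGraph 10 2).Reachable T T' ∧
      ∀ p : (flipGraph 10 2).Walk T T',
        (∀ q : (flipGraph 10 2).Walk T T', p.length ≤ q.length) →
          ∃ d ∈ p.darts, v ∈ d.fst.1 ∧ v ∉ d.snd.1) := by
  refine ⟨octagon, ⟨B0, triB0⟩, ⟨B6, triB6⟩, (1, 6), ?_, ?_, ?_, ?_⟩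
  · show _ ∈ B0; decide +kernel
  · show _ ∈ B6; decide +kernel
  · exact ⟨.cons adjB0 (.cons adjB1 (.cons adjB2 (.cons adjB3 (.cons adjB4 (.cons adjB5 .nil)))))⟩
  · intro p hp
    by_contra hcon
    have h7 := seven_le p rfl rfl (fun d hd h => hcon ⟨d, hd, h⟩)
    have h6 := hp (.cons adjB0 (.cons adjB1 (.cons adjB2 (.cons adjB3 (.cons adjB4
      (.cons adjB5 .nil))))))
    have h6' : p.length ≤ 6 := h6
    omega

end Pool.Agent.Results.MP_1d99bd_co.CommonEdgeFlip
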